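import Pool.Agent.Q87.WHAdm
import Pool.Agent.Q87.WHDefs

/-!
# MP_6bfd89_an, Q1 and Q2: yes

There is an admissible `g ∈ H^∞(𝔻)` (that is `g(𝔻) ∩ 𝔻 = ∅`, `|g| > 1` a.e. on the circle and
`log (|g| - 1) ∉ L¹`) for which `T_g^*` is weakly hypercyclic on `H²(𝔻)`.
-/

open MeasureTheory AddCircle Filter Topology
open scoped Real ENNReal ComplexConjugate
open Pool.Agent.Q87.WHD

namespace Pool.Agent.Results.MP_6bfd89_an.AdmissibleWeaklyHypercyclic

/-- `g` is admissible: `g ∈ H^∞(𝔻)`, `g(𝔻) ∩ 𝔻 = ∅`, and the boundary function `b` of `g` satisfies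
`|b| > 1` a.e. and `log (|b| - 1) ∉ L¹`. -/
def Admissible (g : ℂ → ℂ) : Prop :=
  HInfty g ∧ g '' Metric.ball 0 1 ∩ Metric.ball 0 1 = ∅ ∧
    ∃ b : Circ → ℂ, IsBoundaryFunction g b ∧ (∀ᵐ x ∂leb, 1 < ‖b x‖) ∧
      ¬ Integrable (fun x => Real.log (‖b x‖ - 1)) leb

/-- `T` is `1`-weakly hypercyclic: for some `x`, `φ(O(T,x))` is dense in `ℂ` for every nonzero
continuous functional `φ`. -/
def IsOneWeaklyHypercyclic {H : Type} [NormedAddCommGroup H] [NormedSpace ℂ H] (T : H →L[ℂ] H) :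
    Prop :=
  ∃ x : H, ∀ φ : H →L[ℂ] ℂ, φ ≠ 0 → DenseRange (fun n : ℕ => φ ((T ^ n) x))

theorem one_of_weak {H : Type} [NormedAddCommGroup H] [NormedSpace ℂ H] {T : H →L[ℂ] H}
    (h : IsWeaklyHypercyclic T) : IsOneWeaklyHypercyclic T := by
  obtain ⟨x, hx⟩ := h
  refine ⟨x, fun φ hφ => ?_⟩
  have hc : Continuous (fun y : WeakSpace ℂ H => φ ((toWeakSpace ℂ H).symm y)) :=
    WeakBilin.eval_continuous (topDualPairing ℂ H).flip φ
  have hs : Function.Surjective (fun y : WeakSpace ℂ H => φ ((toWeakSpace ℂ H).symm y)) := by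
    obtain ⟨v, hv⟩ : ∃ v, φ v ≠ 0 := by
      by_contra hcon
      push Not at hcon
      exact hφ (ContinuousLinearMap.ext hcon)
    intro c
    refine ⟨toWeakSpace ℂ H ((c / φ v) • v), ?_⟩
    show φ ((c / φ v) • v) = c
    rw [map_smul, smul_eq_mul, div_mul_cancel₀ _ hv]
  exact hs.denseRange.comp hx hc

/-- **Q1 and Q2: yes.** There are an admissible `g` and `T = T_g^*` on `H²` such that `T` is weakly
hypercyclic, and in particular `1`-weakly hypercyclic. -/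
theorem result : ∃ (p : ℝ≥0∞) (_ : Fact (1 ≤ p)), p = 2 ∧ ∃ g : ℂ → ℂ, Admissible g ∧
    ∃ T : Hp p →L[ℂ] Hp p, IsCoanalyticToeplitz g T ∧ IsWeaklyHypercyclic T ∧
      IsOneWeaklyHypercyclic T := by
  obtain ⟨g, h1, h2, h3, h4, h5, h6, h7, P, hP, x, hx⟩ := Pool.Agent.Q87.WH.main_two
  have hW : IsWeaklyHypercyclic (H := Hp 2)
      (Pool.Agent.Q87.WH.toep hP (fun x => g (Pool.Agent.Q87.WH.zz x))) := ⟨x, hx⟩
  refine ⟨2, inferInstance, rfl, g, ⟨⟨h1, h2⟩, ?_, fun x => g (toCircle x), h4, h6, h7⟩,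
    Pool.Agent.Q87.WH.toep hP (fun x => g (Pool.Agent.Q87.WH.zz x)), ?_, hW, one_of_weak hW⟩
  · ext w
    simp only [Set.mem_inter_iff, Set.mem_image, Set.mem_empty_iff_false, iff_false, not_and]
    rintro ⟨z, hz, rfl⟩ hw
    have := h3 z hz
    rw [Metric.mem_ball, dist_zero_right] at hw
    linarith
  refine ⟨Pool.Agent.Q87.WH.pr hP, ?_, fun x => g (toCircle x), h4, fun f => ?_⟩
  · intro f n hn
    have := hP f n
    rw [if_pos hn] at this
    exact this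
  · exact ⟨Pool.Agent.Q87.WH.mul 2 (fun x => conj (g (Pool.Agent.Q87.WH.zz x))) f.1,
      Pool.Agent.Q87.WH.mul_ae h5.conj _, rfl⟩

end Pool.Agent.Results.MP_6bfd89_an.AdmissibleWeaklyHypercyclic
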